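import Mathlib
import Pool.Agent.H79.MCG.Final

/-!
# MP_3c0c60_lc, Q2: no maximal cofinitary group is `Π⁰₁`
-/

namespace Pool.Agent.Results.MP_3c0c60_lc.NotPi01

open Pool.Agent.H79.MCG

/-- **No maximal cofinitary subgroup of `Sym(ℕ)` is a `Π⁰₁` subset of `Sym(ℕ)`.** -/
theorem result : ¬ ∃ G : Subgroup (Equiv.Perm ℕ), IsMCG G ∧ Pi01 (G : Set (Equiv.Perm ℕ)) :=
  fun ⟨_, hG, hc⟩ => not_closedSet hG hc.closedSet

end Pool.Agent.Results.MP_3c0c60_lc.NotPi01
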