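import Mathlib
import Pool.Agent.H79.MCG.Final

/-!
# MP_3c0c60_lc: maximal cofinitary groups are oligomorphic

For every maximal cofinitary group `G` and every finite set `B` the pointwise stabilizer of `B` in
`G` has only finitely many orbits on `ℕ`.
-/

namespace Pool.Agent.Results.MP_3c0c60_lc.Oligomorphic

open Pool.Agent.H79.MCG

/-- **Maximal cofinitary groups are oligomorphic**: for each finite set `B` there is a finite set
`F` which meets all orbits of the pointwise stabilizer of `B` in `G`. -/
theorem result (G : Subgroup (Equiv.Perm ℕ)) (hG : IsMCG G) (B : Finset ℕ) :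
    ∃ F : Finset ℕ, ∀ y, ∃ x ∈ F, SameOrbit G B x y :=
  oligomorphic hG B

end Pool.Agent.Results.MP_3c0c60_lc.Oligomorphic
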